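import Pool.Agent.V11178.Signed

/-!
# `τ±(ℤ_n, [1, 5])` is not monotone along even `n`

`τ±(ℤ_2, [1, 5]) = 0`, `τ±(ℤ_18, [1, 5]) ≥ 2` and `τ±(ℤ_20, [1, 5]) ≤ 1`.
-/

namespace Pool.Agent.Results.MP_8fcc33_co.NotMonotone

open Pool.Agent.V11178

theorem two : tauPM (ZMod 2) 5 = 0 := by
  have : tauPM (ZMod 2) 5 ≤ 0 := by
    apply tauPM_le_of_card
    intro A hA
    obtain ⟨a, rfl⟩ := Finset.card_eq_one.mp hA
    rw [tIndep_iff]
    push Not
    refine ⟨fun _ => 2, by simp, by simp, ?_⟩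
    simp only [Finset.sum_singleton]
    revert a
    decide
  omega

theorem eighteen : 2 ≤ tauPM (ZMod 18) 5 := by
  have h : TIndep 5 ({1, 5} : Finset (ZMod 18)) := by
    rw [tIndep_iff]
    intro c h1 h2 h3
    rw [Finset.sum_pair (by decide)] at h1 h2 h3
    have key0 : ∀ x y : Fin 11, ((x : ℕ) : ZMod 18) * 1 + ((y : ℕ) : ZMod 18) * 5 = 5 * 1 + 5 * 5 →
        ((((x : ℕ) : ℤ) - 5).natAbs + (((y : ℕ) : ℤ) - 5).natAbs = 0 ∨
        6 ≤ (((x : ℕ) : ℤ) - 5).natAbs + (((y : ℕ) : ℤ) - 5).natAbs) := by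
      decide
    obtain ⟨x, hx⟩ : ∃ x : Fin 11, ((x : ℕ) : ℤ) = c 1 + 5 := by
      refine ⟨⟨(c 1 + 5).toNat, by omega⟩, ?_⟩
      simp only
      omega
    obtain ⟨y, hy⟩ : ∃ y : Fin 11, ((y : ℕ) : ℤ) = c 5 + 5 := by
      refine ⟨⟨(c 5 + 5).toNat, by omega⟩, ?_⟩
      simp only
      omega
    have hx' : ((x : ℕ) : ZMod 18) = ((c 1 : ℤ) : ZMod 18) + 5 := by
      have := congrArg (Int.cast : ℤ → ZMod 18) hx
      push_cast at this
      exact this
    have hy' : ((y : ℕ) : ZMod 18) = ((c 5 : ℤ) : ZMod 18) + 5 := by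
      have := congrArg (Int.cast : ℤ → ZMod 18) hy
      push_cast at this
      exact this
    have := key0 x y (by
      rw [hx', hy']
      simp only [zsmul_eq_mul] at h3
      linear_combination h3)
    rw [hx, hy] at this
    simp only [add_sub_cancel_right] at this
    omega
  have := le_tauPM h
  have hc : ({1, 5} : Finset (ZMod 18)).card = 2 := by decide
  omega

theorem twenty : tauPM (ZMod 20) 5 ≤ 1 := by
  apply tauPM_le_of_card
  intro A hA
  obtain ⟨a, b, hab, rfl⟩ := Finset.card_eq_two.mp hA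
  rw [tIndep_iff]
  push Not
  have key : ∀ a b : ZMod 20, ∃ x y : Fin 11,
      1 ≤ (((x : ℕ) : ℤ) - 5).natAbs + (((y : ℕ) : ℤ) - 5).natAbs ∧
      (((x : ℕ) : ℤ) - 5).natAbs + (((y : ℕ) : ℤ) - 5).natAbs ≤ 5 ∧
      (((x : ℕ) : ℤ) - 5 : ℤ) * a + (((y : ℕ) : ℤ) - 5 : ℤ) * b = 0 := by
    decide
  obtain ⟨x, y, h1, h2, h3⟩ := key a b
  refine ⟨fun g => if g = a then ((x : ℕ) : ℤ) - 5 else ((y : ℕ) : ℤ) - 5, ?_, ?_, ?_⟩
  · rw [Finset.sum_pair hab]
    simp only [if_true, hab.symm, if_false]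
    exact h1
  · rw [Finset.sum_pair hab]
    simp only [if_true, hab.symm, if_false]
    exact h2
  · rw [Finset.sum_pair hab]
    simp only [if_true, hab.symm, if_false, zsmul_eq_mul]
    exact h3

/-- For `t = 5`, the sequence `τ±(ℤ_n, [1, t])`, over the positive even `n = 2 (k + 1)`, is neither
non-decreasing nor non-increasing. -/
theorem result : ¬ Monotone (fun k : ℕ => tauPM (ZMod (2 * (k + 1))) 5) ∧
    ¬ Antitone (fun k : ℕ => tauPM (ZMod (2 * (k + 1))) 5) := by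
  constructor
  · intro h
    have h1 : tauPM (ZMod 18) 5 ≤ tauPM (ZMod 20) 5 := h (show 8 ≤ 9 by norm_num)
    have := eighteen
    have := twenty
    omega
  · intro h
    have h1 : tauPM (ZMod 18) 5 ≤ tauPM (ZMod 2) 5 := h (show 0 ≤ 8 by norm_num)
    have := eighteen
    have := two
    omega

end Pool.Agent.Results.MP_8fcc33_co.NotMonotone
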